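import Pool.Agent.helper69.DH.SpecR2

/-!
# Project d2: (MP_5823cb_al), part R: rWTV, the variation of the weights along the branch of a point
-/

set_option autoImplicit false

open Filter Topology MeasureTheory
open scoped commutatorElement

namespace Pool.Agent.helper90.DH

open Pool.Agent.helper64.D2

theorem rWTV_quot (a a' N N' q : ℝ) (hq : 1 ≤ q) (ha : |a| ≤ 1) (hN : 99 / 100 * q ≤ N)
    (hN' : 99 / 100 * q ≤ N') : |a' / N' - a / N| ≤ 51 / 50 / q * |a' - a| + 26 / 25 / q ^ 2 * |N' - N| := by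
  have hq0 : 0 < q := by linarith
  have hN0 : 0 < N := by linarith [mul_pos (show (0 : ℝ) < 99 / 100 by norm_num) hq0]
  have hN0' : 0 < N' := by linarith [mul_pos (show (0 : ℝ) < 99 / 100 by norm_num) hq0]
  have e : a' / N' - a / N = (a' - a) / N' + a * (N - N') / (N * N') := by
    field_simp
    ring
  rw [e]
  refine (abs_add_le _ _).trans (add_le_add ?_ ?_)
  · rw [abs_div, abs_of_pos hN0', div_le_iff₀ hN0']
    have h1 : 1 ≤ 51 / 50 / q * N' := by
      rw [div_mul_eq_mul_div, le_div_iff₀ hq0]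
      nlinarith
    nlinarith [abs_nonneg (a' - a)]
  · rw [abs_div, abs_mul, abs_of_pos (mul_pos hN0 hN0'), div_le_iff₀ (mul_pos hN0 hN0'),
      abs_sub_comm N N']
    have h1 : 1 ≤ 26 / 25 / q ^ 2 * (N * N') := by
      rw [div_mul_eq_mul_div, le_div_iff₀ (by positivity)]
      have h2 : (99 / 100 * q) * (99 / 100 * q) ≤ N * N' := mul_le_mul hN hN' (by positivity) hN0.le
      nlinarith [sq_nonneg q]
    have h3 : |a| * |N' - N| ≤ 1 * |N' - N| := mul_le_mul_of_nonneg_right ha (abs_nonneg _)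
    nlinarith [abs_nonneg (N' - N)]

open Classical in
theorem rWTV_one (D : RD) (x c : ℝ) (hc : 0 ≤ c) (s0 : ℕ) : ∀ n, s0 ≤ n →
    ∑ s ∈ Finset.Ico s0 n, (if ¬ rcr D s x ∧ rcr D (s + 1) x then c else 0) ≤ if rcr D n x then c else 0 := by
  intro n hn
  induction n, hn using Nat.le_induction with
  | base =>
    rw [Finset.Ico_self, Finset.sum_empty]
    split_ifs
    · exact hc
    · exact le_rfl
  | succ n hn ih =>
    rw [Finset.sum_Ico_succ_top hn]
    by_cases h1 : rcr D n x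
    · have h2 : rcr D (n + 1) x := by
        obtain ⟨t, ht, ht2⟩ := h1
        exact ⟨t, by omega, ht2⟩
      rw [if_pos h1] at ih
      rw [if_neg (fun h => h.1 h1), if_pos h2]
      linarith
    · rw [if_neg h1] at ih
      by_cases h2 : rcr D (n + 1) x
      · rw [if_pos ⟨h1, h2⟩, if_pos h2]
        linarith
      · rw [if_neg (fun h => h2 h.2), if_neg h2]
        linarith

theorem rWTV (hBAS : rBAS_stmt) (hBRN : rBRN_stmt) (hVAR : rVAR_stmt) (hNRM : rNRM_stmt)
    (hWTC : rWTC_stmt) (hWTB : rWTB_stmt) (hETA : rETA_stmt) : rWTV_stmt := by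
  classical
  intro P S hR D hD x i hx hi
  have hq1 : 1 ≤ P.q := hR.1.1
  have hs0 : 216 ≤ P.s0 := hR.1.2.2.2.1
  have hqr : (1 : ℝ) ≤ P.q := by exact_mod_cast hq1
  have hq0 : (0 : ℝ) < P.q := by linarith
  set q : ℝ := (P.q : ℝ) with hq
  rcases le_or_gt S P.s0 with hS | hS
  · rw [Finset.Ico_eq_empty_of_le hS, Finset.sum_empty]
    positivity
  obtain ⟨hB1, hB2, hB3, hB4, hB5, hB6, hB7, hB8, hB9, hB10⟩ := hBAS
  obtain ⟨hR1, hR2, hR3, hR4, hR5, hR6⟩ := hBRN P S hR
  set a : ℕ → ℕ → ℝ := fun k s => reta D.H s (rpt P s k (ci s x)) with ha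
  set N : ℕ → ℝ := fun s => rNN P D.H s (ci s x) with hN
  set w : ℕ → ℝ := fun s => rwt P D s i (ci s x) with hw
  -- variation of the openness
  have hva : ∀ k < P.q, ∑ s ∈ Finset.Ico P.s0 S, |a k (s + 1) - a k s| ≤ 25601 := by
    intro k hk
    have hz := (hR6 S k x hS.le le_rfl hk).1
    rw [abs_le] at hz
    refine hVAR P S hR D hD (ev (P.cm S k)⁻¹ x) (fun s => rpt P s k (ci s x)) ?_ ?_ ?_
    · linarith [hx.1, hz.1]
    · linarith [hx.2, hz.2]
    · intro s h1 h2
      exact hR2 s S k x h1 h2 le_rfl hk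
  have hvN : ∑ s ∈ Finset.Ico P.s0 S, |N (s + 1) - N s| ≤ 25601 * q := by
    have h1 : ∀ s ∈ Finset.Ico P.s0 S, |N (s + 1) - N s| ≤
        ∑ k ∈ Finset.range P.q, |a k (s + 1) - a k s| := by
      intro s _
      have e : N (s + 1) - N s = ∑ k ∈ Finset.range P.q, (a k (s + 1) - a k s) := by
        rw [Finset.sum_sub_distrib]
        rfl
      rw [e]
      exact Finset.abs_sum_le_sum_abs _ _
    refine (Finset.sum_le_sum h1).trans ?_
    rw [Finset.sum_comm]
    refine (Finset.sum_le_sum (fun k hk => hva k (Finset.mem_range.1 hk))).trans ?_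
    rw [Finset.sum_const, Finset.card_range, nsmul_eq_mul]
    linarith
  -- at levels which are not critical
  have hnc : ∀ s, P.s0 ≤ s → s ≤ S → ¬ rcr D s x → w s = a i s / N s ∧ 99 / 100 * q ≤ N s ∧ |a i s| ≤ 1 := by
    intro s h1 h2 h3
    have h4 : ci s x ∈ rSg s := hB8 s x (by omega) hx
    refine ⟨(hWTC P D x s i (by omega)).1 h3 hx, ?_, ?_⟩
    · refine (hNRM P S hR D hD s (ci s x) h1 h2 h4 ?_).1
      intro t ht hmem
      rw [← hB2 s t x ht] at hmem
      exact h3 ⟨t, ht, hmem⟩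
    · have h5 := (hETA D.H s (rpt P s i (ci s x))).1
      rw [abs_le]
      exact ⟨by linarith [h5.1], h5.2.1⟩
  have hstep : ∀ s ∈ Finset.Ico P.s0 S, |w (s + 1) - w s| ≤
      51 / 50 / q * |a i (s + 1) - a i s| + 26 / 25 / q ^ 2 * |N (s + 1) - N s| +
        (if ¬ rcr D s x ∧ rcr D (s + 1) x then 2 / q else 0) := by
    intro s hs
    rw [Finset.mem_Ico] at hs
    have hA0 : 0 ≤ 51 / 50 / q * |a i (s + 1) - a i s| := by positivity
    have hN0 : 0 ≤ 26 / 25 / q ^ 2 * |N (s + 1) - N s| := by positivity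
    by_cases h1 : rcr D s x
    · -- the weights are equal
      rw [if_neg (fun h => h.1 h1)]
      have hex : ∃ τ, ci τ x ∈ D.K τ := by
        obtain ⟨t, _, ht⟩ := h1
        exact ⟨t, ht⟩
      set τ := Nat.find hex with hτ
      have hτ1 : ci τ x ∈ D.K τ := Nat.find_spec hex
      have hτ2 : ∀ t < τ, ci t x ∉ D.K t := fun t ht => Nat.find_min hex ht
      have hτs : τ ≤ s := by
        obtain ⟨t, ht, ht2⟩ := h1
        exact (Nat.find_min' hex ht2).trans ht
      have e1 := (hWTC P D x s i (by omega)).2 τ hτs hτ1 hτ2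
      have e2 := (hWTC P D x (s + 1) i (by omega)).2 τ (by omega) hτ1 hτ2
      have e3 : w (s + 1) = w s := by
        by_cases hG : i ∈ D.G τ (ci τ x)
        · exact (e2.1 hG).trans (e1.1 hG).symm
        · exact (e2.2 hG).trans (e1.2 hG).symm
      rw [e3, sub_self, abs_zero]
      linarith
    · by_cases h2 : rcr D (s + 1) x
      · rw [if_pos ⟨h1, h2⟩]
        have e1 := (hWTB P S hR D hD s (ci s x) hs.1 (by omega)).2 i
        have e2 := (hWTB P S hR D hD (s + 1) (ci (s + 1) x) (by omega) (by omega)).2 i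
        have e3 : |w (s + 1) - w s| ≤ 2 / q := by
          rw [abs_le]
          constructor
          · show -(2 / q) ≤ rwt P D (s + 1) i (ci (s + 1) x) - rwt P D s i (ci s x)
            linarith [e1.1, e1.2, e2.1, e2.2]
          · show rwt P D (s + 1) i (ci (s + 1) x) - rwt P D s i (ci s x) ≤ 2 / q
            linarith [e1.1, e1.2, e2.1, e2.2]
        linarith
      · rw [if_neg (fun h => h2 h.2), add_zero]
        obtain ⟨e1, e2, e3⟩ := hnc s hs.1 (by omega) h1
        obtain ⟨f1, f2, f3⟩ := hnc (s + 1) (by omega) (by omega) h2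
        rw [e1, f1]
        exact rWTV_quot _ _ _ _ q hqr e3 e2 f2
  refine (Finset.sum_le_sum hstep).trans ?_
  rw [Finset.sum_add_distrib, Finset.sum_add_distrib, ← Finset.mul_sum, ← Finset.mul_sum]
  have h1 := hva i hi
  have h2 := rWTV_one D x (2 / q) (by positivity) P.s0 S hS.le
  have h3 : (if rcr D S x then 2 / q else 0) ≤ 2 / q := by
    split_ifs
    · exact le_rfl
    · positivity
  have h4 : 51 / 50 / q * ∑ s ∈ Finset.Ico P.s0 S, |a i (s + 1) - a i s| ≤ 51 / 50 / q * 25601 :=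
    mul_le_mul_of_nonneg_left h1 (by positivity)
  have h5 : 26 / 25 / q ^ 2 * ∑ s ∈ Finset.Ico P.s0 S, |N (s + 1) - N s| ≤
      26 / 25 / q ^ 2 * (25601 * q) := mul_le_mul_of_nonneg_left hvN (by positivity)
  have h6 : 51 / 50 / q * 25601 + 26 / 25 / q ^ 2 * (25601 * q) + 2 / q ≤ 2 ^ 16 / q := by
    have e : 26 / 25 / q ^ 2 * (25601 * q) = 26 / 25 * 25601 / q := by
      field_simp
    rw [e]
    have e2 : 51 / 50 / q * 25601 + 26 / 25 * 25601 / q + 2 / q =
        (51 / 50 * 25601 + 26 / 25 * 25601 + 2) / q := by ring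
    rw [e2]
    exact div_le_div_of_nonneg_right (by norm_num) hq0.le
  linarith

end Pool.Agent.helper90.DH
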